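import Mathlib

set_option autoImplicit false

/-!
# Limit measures of the XOR cellular automaton

We construct one computable shift-invariant probability measure `μ` on `{0,1}^ℤ` such that
`F^n μ` has a non-computable weak-* limit point and the `μ`-limit language is not computable.

Let `y j` be the sequence `… 110110 …` stretched by the factor `2 ^ j`.  It has spatial period
`3 * 2 ^ j`, and up to translations it has period `2 ^ j` under `F`.  The key fact (`uniq`): a word of
length `5 * 2 ^ j` occurring in `F^r (y j)` occurs in `F^n (y i)` only if `i = j` and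
`n ≡ r` modulo `2 ^ j`.  The measure `μ` is the mixture, over `n = (j, t)`, with weights
`2 ^ (-n-1)`, of the uniform measure on the orbit of `y j` if the `j`-th program halts within `t`
steps, and of the point mass at the zero sequence otherwise.  Then the beginning of length
`5 * 2 ^ j` of `y j` belongs to the limit language iff the `j`-th program halts.  Moreover every
`2`-adic integer `ξ` gives a limit point of `F^n μ`, and these are pairwise different on cylinder sets;
as there are only countably many algorithms, some of them is not computable.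
-/

namespace Pool.Agent.Results.MP_02be1f_lc.XorLimits

open MeasureTheory Filter Topology

/-- The two-sided binary sequences, with the product topology (and its Borel sets, i.e. the
product of the discrete sigma-algebras). -/
abbrev Conf : Type := ℤ → Bool

/-- The two-neighbour XOR cellular automaton. -/
def xorCA (x : Conf) : Conf := fun i => xor (x i) (x (i + 1))

/-- The shift. -/
def shift (x : Conf) : Conf := fun i => x (i + 1)

/-- The cylinder set `[w]`. -/
def cyl (w : List Bool) : Set Conf := {x | ∀ (i : ℕ) (h : i < w.length), x i = w[i]}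

/-- The measure `ν` is computable: there are an algorithm computing the numerator `p (w, k)` and an
algorithm computing the denominator `q (w, k)` of a rational number within `2 ^ (-k)` of
`ν [w]`. -/
def ComputableMeasure (ν : Measure Conf) : Prop :=
  ∃ p q : List Bool × ℕ → ℕ, Computable p ∧ Computable q ∧
    ∀ w k, 0 < q (w, k) ∧ |ν.real (cyl w) - (p (w, k) : ℝ) / q (w, k)| ≤ 2⁻¹ ^ k

/-- The measure `ν` is a weak-* limit point of the sequence `F^n μ`: some subsequence converges to
`ν` on all cylinder sets. -/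
def IsLimitPoint (μ ν : Measure Conf) : Prop :=
  ∃ φ : ℕ → ℕ, StrictMono φ ∧ ∀ w : List Bool,
    Tendsto (fun m => (μ.map (xorCA^[φ m])).real (cyl w)) atTop (𝓝 (ν.real (cyl w)))

/-- The `μ`-limit set, as a language. -/
def limitLanguage (μ : Measure Conf) : Set (List Bool) :=
  {w | ¬ Tendsto (fun n => (μ.map (xorCA^[n])).real (cyl w)) atTop (𝓝 0)}

/-! ### Translations and doubling -/

/-- Translation. -/
def T (c : ℤ) (x : Conf) : Conf := fun i => x (i + c)

/-- Doubling: the values are moved to the even places, the odd places are filled with zeros. -/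
def E (x : Conf) : Conf := fun i => if i % 2 = 0 then x (i / 2) else false

/-- The other kind of doubling. -/
def D (x : Conf) : Conf := fun i => x ((i + 1) / 2)

theorem xorCA_T (c : ℤ) (x : Conf) : xorCA (T c x) = T c (xorCA x) := by
  funext i
  simp only [xorCA, T]
  rw [show i + 1 + c = i + c + 1 by ring]

theorem xorCA_E (x : Conf) : xorCA (E x) = D x := by
  funext i
  simp only [xorCA, E, D]
  rcases Int.emod_two_eq_zero_or_one i with h | h
  · rw [if_pos h, if_neg (by omega), Bool.xor_false]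
    congr 1
    omega
  · rw [if_neg (by omega), if_pos (by omega), Bool.false_xor]

theorem xorCA_D (x : Conf) : xorCA (D x) = E (xorCA x) := by
  funext i
  simp only [xorCA, E, D]
  rcases Int.emod_two_eq_zero_or_one i with h | h
  · rw [if_pos h]
    congr 2
    · omega
    · omega
  · rw [if_neg (by omega)]
    have : (i + 1 + 1) / 2 = (i + 1) / 2 := by omega
    rw [this, Bool.xor_self]

theorem iterate_E (x : Conf) (n : ℕ) : xorCA^[2 * n] (E x) = E (xorCA^[n] x) := by
  induction n with
  | zero => rfl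
  | succ n ih =>
    rw [show 2 * (n + 1) = 2 * n + 1 + 1 by ring, Function.iterate_succ_apply',
      Function.iterate_succ_apply', ih, xorCA_E, xorCA_D, ← Function.iterate_succ_apply' xorCA n]

theorem iterate_E' (x : Conf) (n : ℕ) : xorCA^[2 * n + 1] (E x) = D (xorCA^[n] x) := by
  rw [Function.iterate_succ_apply', iterate_E, xorCA_E]

theorem iterate_T (c : ℤ) (x : Conf) (n : ℕ) : xorCA^[n] (T c x) = T c (xorCA^[n] x) := by
  induction n with
  | zero => rfl
  | succ n ih => rw [Function.iterate_succ_apply', ih, xorCA_T, Function.iterate_succ_apply']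

theorem T_T (c d : ℤ) (x : Conf) : T c (T d x) = T (c + d) x := by
  funext i
  simp only [T]
  rw [add_assoc]

theorem E_T (c : ℤ) (x : Conf) : E (T c x) = T (2 * c) (E x) := by
  funext i
  simp only [E, T]
  rcases Int.emod_two_eq_zero_or_one i with h | h
  · rw [if_pos h, if_pos (by omega)]
    congr 1
    omega
  · rw [if_neg (by omega), if_neg (by omega)]

/-! ### The periodic sequences -/

/-- The sequence `… 110110 …`, stretched by the factor `2 ^ j`. -/
def y (j : ℕ) : Conf := fun i => decide (i % (2 : ℤ) ^ j = 0 ∧ i / 2 ^ j % 3 ≠ 2)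

theorem y_succ (j : ℕ) : y (j + 1) = E (y j) := by
  funext i
  simp only [y, E]
  have h1 : i / 2 ^ (j + 1) = i / 2 / 2 ^ j := by
    rw [pow_succ', Int.ediv_ediv_of_nonneg (by norm_num)]
  have h2 : i % 2 ^ (j + 1) = 0 ↔ i % 2 = 0 ∧ i / 2 % 2 ^ j = 0 := by
    rw [← Int.dvd_iff_emod_eq_zero, ← Int.dvd_iff_emod_eq_zero, ← Int.dvd_iff_emod_eq_zero,
      pow_succ']
    constructor
    · rintro ⟨k, hk⟩
      refine ⟨⟨2 ^ j * k, by rw [hk]; ring⟩, ⟨k, ?_⟩⟩
      rw [hk, mul_assoc, Int.mul_ediv_cancel_left _ (by norm_num)]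
    · rintro ⟨h, ⟨k, hk⟩⟩
      refine ⟨k, ?_⟩
      rw [mul_assoc, ← hk]
      omega
  rw [h1]
  split_ifs with h
  · simp only [decide_eq_decide]
    rw [h2]
    tauto
  · rw [decide_eq_false_iff_not, h2]
    tauto

theorem y_zero (i : ℤ) : y 0 i = decide (i % 3 ≠ 2) := by
  simp [y]

theorem xorCA_y0 : xorCA (y 0) = T 2 (y 0) := by
  funext i
  simp only [xorCA, T, y_zero]
  have : i % 3 = 0 ∨ i % 3 = 1 ∨ i % 3 = 2 := by omega
  rcases this with h | h | h
  · have h1 : (i + 1) % 3 = 1 := by omega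
    have h2 : (i + 2) % 3 = 2 := by omega
    rw [h, h1, h2]; decide
  · have h1 : (i + 1) % 3 = 2 := by omega
    have h2 : (i + 2) % 3 = 0 := by omega
    rw [h, h1, h2]; decide
  · have h1 : (i + 1) % 3 = 0 := by omega
    have h2 : (i + 2) % 3 = 1 := by omega
    rw [h, h1, h2]; decide

theorem iterate_y0 (n : ℕ) : xorCA^[n] (y 0) = T (2 * n) (y 0) := by
  induction n with
  | zero => funext i; simp [T]
  | succ n ih =>
    rw [Function.iterate_succ_apply', ih, xorCA_T, xorCA_y0, T_T]
    congr 1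

/-- The sequence `y j` is periodic in time up to translation. -/
theorem iterate_y (j m : ℕ) : xorCA^[2 ^ j * m] (y j) = T (2 ^ (j + 1) * m) (y j) := by
  induction j with
  | zero =>
    rw [pow_zero, one_mul, iterate_y0]
    norm_num
  | succ j ih =>
    rw [y_succ, pow_succ', mul_assoc, iterate_E, ih, E_T]
    congr 1
    ring

/-- The sequence `y j` is periodic in space. -/
theorem T_y (j : ℕ) : T (3 * 2 ^ j) (y j) = y j := by
  induction j with
  | zero =>
    funext i
    simp only [T, y_zero]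
    congr 1
    rw [show (3 : ℤ) * 2 ^ 0 = 3 by norm_num]
    simp
  | succ j ih =>
    rw [y_succ]
    conv_rhs => rw [← ih, E_T]
    congr 1
    ring

/-- The two forms of `F^n (y (j + 1))`. -/
theorem iterate_y_succ (j n : ℕ) :
    (n % 2 = 0 ∧ xorCA^[n] (y (j + 1)) = E (xorCA^[n / 2] (y j))) ∨
      (n % 2 = 1 ∧ xorCA^[n] (y (j + 1)) = D (xorCA^[n / 2] (y j))) := by
  rcases Nat.mod_two_eq_zero_or_one n with h | h
  · left
    refine ⟨h, ?_⟩
    obtain ⟨m, rfl⟩ : ∃ m, n = 2 * m := ⟨n / 2, by omega⟩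
    rw [y_succ, iterate_E]
    congr 2
    omega
  · right
    refine ⟨h, ?_⟩
    obtain ⟨m, rfl⟩ : ∃ m, n = 2 * m + 1 := ⟨n / 2, by omega⟩
    rw [y_succ, iterate_E']
    congr 2
    omega

theorem E_even (x : Conf) (k : ℤ) : E x (2 * k) = x k := by
  simp only [E]
  rw [if_pos (by omega)]
  congr 1
  omega

theorem D_even (x : Conf) (k : ℤ) : D x (2 * k) = x k := by
  simp only [D]
  congr 1
  omega

theorem E_odd (x : Conf) {i : ℤ} (h : i % 2 = 1) : E x i = false := by
  simp only [E]
  rw [if_neg (by omega)]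

theorem D_pair (x : Conf) {i : ℤ} (h : i % 2 = 1) : D x i = D x (i + 1) := by
  simp only [D]
  congr 1
  omega

/-- The sequences `F^n (y j)` are not constant on any interval of length `3 * 2 ^ j`. -/
theorem nonconst (j : ℕ) : ∀ (n : ℕ) (p : ℤ) (b : Bool),
    ∃ l : ℕ, l < 3 * 2 ^ j ∧ xorCA^[n] (y j) (p + l) = b := by
  induction j with
  | zero =>
    intro n p b
    rw [iterate_y0]
    simp only [T, y_zero]
    cases b
    · have : ∃ l : ℕ, l < 3 ∧ (p + l + 2 * n) % 3 = 2 := by
        have h := Int.emod_nonneg (2 - p - 2 * n) (by norm_num : (3 : ℤ) ≠ 0)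
        refine ⟨((2 - p - 2 * n) % 3).toNat, by omega, ?_⟩
        rw [Int.toNat_of_nonneg h]
        omega
      obtain ⟨l, h1, h2⟩ := this
      exact ⟨l, by simpa using h1, by rw [h2]; rfl⟩
    · have : ∃ l : ℕ, l < 3 ∧ (p + l + 2 * n) % 3 = 0 := by
        have h := Int.emod_nonneg (0 - p - 2 * n) (by norm_num : (3 : ℤ) ≠ 0)
        refine ⟨((0 - p - 2 * n) % 3).toNat, by omega, ?_⟩
        rw [Int.toNat_of_nonneg h]
        omega
      obtain ⟨l, h1, h2⟩ := this
      exact ⟨l, by simpa using h1, by rw [h2]; rfl⟩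
  | succ j ih =>
    intro n p b
    obtain ⟨l, hl, hv⟩ := ih (n / 2) ((p + 1) / 2) b
    have hpow : 3 * 2 ^ (j + 1) = 2 * (3 * 2 ^ j) := by ring
    have hk : ∃ l' : ℕ, l' < 3 * 2 ^ (j + 1) ∧ p + l' = 2 * ((p + 1) / 2 + l) := by
      refine ⟨(2 * ((p + 1) / 2 + l) - p).toNat, ?_, ?_⟩
      · omega
      · omega
    obtain ⟨l', h1, h2⟩ := hk
    refine ⟨l', h1, ?_⟩
    rw [h2]
    rcases iterate_y_succ j n with ⟨-, h⟩ | ⟨-, h⟩
    · rw [h, E_even, hv]
    · rw [h, D_even, hv]

theorem y0_true {i : ℤ} (h : i % 3 ≠ 2) : y 0 i = true := by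
  rw [y_zero, decide_eq_true h]

theorem y0_false {i : ℤ} (h : i % 3 = 2) : y 0 i = false := by
  rw [y_zero, h]; rfl

theorem uniq_base (r n i : ℕ) (p q : ℤ)
    (h : ∀ l : ℕ, l < 5 → xorCA^[r] (y 0) (p + l) = xorCA^[n] (y (i + 1)) (q + l)) : False := by
  rw [iterate_y0] at h
  simp only [T] at h
  rcases iterate_y_succ i n with ⟨-, hz⟩ | ⟨-, hz⟩
  · rw [hz] at h
    obtain ⟨l, hl, hl'⟩ : ∃ l : ℕ, l < 3 ∧ (p + l + 2 * r) % 3 = 0 := by
      have h := Int.emod_nonneg (0 - p - 2 * r) (by norm_num : (3 : ℤ) ≠ 0)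
      refine ⟨((0 - p - 2 * r) % 3).toNat, by omega, ?_⟩
      rw [Int.toNat_of_nonneg h]
      omega
    have h1 := h l (by omega)
    have h2 := h (l + 1) (by omega)
    rw [y0_true (by omega)] at h1 h2
    rcases Int.emod_two_eq_zero_or_one (q + l) with hq | hq
    · have : (q + ((l + 1 : ℕ) : ℤ)) % 2 = 1 := by push_cast; omega
      rw [E_odd _ this] at h2
      exact absurd h2 (by simp)
    · rw [E_odd _ hq] at h1
      exact absurd h1 (by simp)
  · rw [hz] at h
    obtain ⟨l, hl, hl'⟩ : ∃ l : ℕ, l < 2 ∧ (q + l) % 2 = 1 := by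
      rcases Int.emod_two_eq_zero_or_one q with hq | hq
      · exact ⟨1, by omega, by push_cast; omega⟩
      · exact ⟨0, by omega, by push_cast; omega⟩
    have h0 := h l (by omega)
    have h1 := h (l + 1) (by omega)
    have h2 := h (l + 2) (by omega)
    have h3 := h (l + 3) (by omega)
    have e1 : D (xorCA^[n / 2] (y i)) (q + l) =
        D (xorCA^[n / 2] (y i)) (q + ((l + 1 : ℕ) : ℤ)) := by
      rw [D_pair _ hl']
      congr 1
      push_cast
      ring
    have e2 : D (xorCA^[n / 2] (y i)) (q + ((l + 2 : ℕ) : ℤ)) =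
        D (xorCA^[n / 2] (y i)) (q + ((l + 3 : ℕ) : ℤ)) := by
      rw [D_pair _ (by push_cast; omega)]
      congr 1
      push_cast
      ring
    rw [← e1, ← h0] at h1
    rw [← e2, ← h2] at h3
    have : (p + l + 2 * r) % 3 = 0 ∨ (p + l + 2 * r) % 3 = 1 ∨ (p + l + 2 * r) % 3 = 2 := by
      omega
    rcases this with hc | hc | hc
    · rw [y0_true (i := p + ((l + 3 : ℕ) : ℤ) + 2 * r) (by push_cast; omega),
        y0_false (i := p + ((l + 2 : ℕ) : ℤ) + 2 * r) (by push_cast; omega)] at h3
      exact absurd h3 (by simp)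
    · rw [y0_false (i := p + ((l + 1 : ℕ) : ℤ) + 2 * r) (by push_cast; omega),
        y0_true (i := p + (l : ℤ) + 2 * r) (by omega)] at h1
      exact absurd h1 (by simp)
    · rw [y0_true (i := p + ((l + 1 : ℕ) : ℤ) + 2 * r) (by push_cast; omega),
        y0_false (i := p + (l : ℤ) + 2 * r) (by omega)] at h1
      exact absurd h1 (by simp)

theorem mixed (x z : Conf) (p q : ℤ) (W : ℕ)
    (h : ∀ l : ℕ, l < W → E x (p + l) = D z (q + l)) (l : ℕ) (hl : 1 ≤ l) (hl' : l + 1 < W) :
    E x (p + l) = false := by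
  have key : ∀ l : ℕ, l + 1 < W → (q + l) % 2 = 1 →
      E x (p + l) = false ∧ E x (p + ((l + 1 : ℕ) : ℤ)) = false := by
    intro l hl hq
    have h0 := h l (by omega)
    have h1 := h (l + 1) hl
    have e1 : D z (q + l) = D z (q + ((l + 1 : ℕ) : ℤ)) := by
      rw [D_pair _ hq]
      congr 1
      push_cast
      ring
    have e2 : E x (p + l) = E x (p + ((l + 1 : ℕ) : ℤ)) := by rw [h0, h1, e1]
    rcases Int.emod_two_eq_zero_or_one (p + l) with hp | hp
    · have : (p + ((l + 1 : ℕ) : ℤ)) % 2 = 1 := by push_cast; omega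
      rw [E_odd _ this] at e2 ⊢
      exact ⟨e2, rfl⟩
    · rw [E_odd _ hp] at e2 ⊢
      exact ⟨rfl, e2.symm⟩
  rcases Int.emod_two_eq_zero_or_one (q + l) with hq | hq
  · obtain ⟨k, rfl⟩ : ∃ k, l = k + 1 := ⟨l - 1, by omega⟩
    exact (key k (by omega) (by push_cast at hq; omega)).2
  · exact (key l hl' hq).1

/-- A word of length `5 * 2 ^ j` occurring in `F^r (y j)` determines `j` and `r` modulo `2 ^ j`. -/
theorem uniq (j : ℕ) : ∀ (i r n : ℕ) (p q : ℤ),
    (∀ l : ℕ, l < 5 * 2 ^ j → xorCA^[r] (y j) (p + l) = xorCA^[n] (y i) (q + l)) →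
    i = j ∧ r % 2 ^ j = n % 2 ^ j := by
  induction j with
  | zero =>
    intro i r n p q h
    cases i with
    | zero => exact ⟨rfl, by simp [Nat.mod_one]⟩
    | succ i => exact (uniq_base r n i p q fun l hl => h l (by simpa using hl)).elim
  | succ j ih =>
    intro i r n p q h
    have hpow : 5 * 2 ^ (j + 1) = 2 * (5 * 2 ^ j) := by ring
    have hpow' : 3 * 2 ^ (j + 1) = 2 * (3 * 2 ^ j) := by ring
    have hpos : 0 < 2 ^ j := by positivity
    cases i with
    | zero =>
      exact (uniq_base n r j q p fun l hl => (h l (by omega)).symm).elim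
    | succ i =>
      -- the conclusion, if the values at the even places agree
      have fin : r % 2 = n % 2 → (∀ l : ℕ, l < 5 * 2 ^ j →
          xorCA^[r / 2] (y j) ((p + 1) / 2 + l) = xorCA^[n / 2] (y i) ((q + 1) / 2 + l)) →
          i + 1 = j + 1 ∧ r % 2 ^ (j + 1) = n % 2 ^ (j + 1) := by
        intro hpar hag
        obtain ⟨h1, h2⟩ := ih i (r / 2) (n / 2) _ _ hag
        refine ⟨by omega, ?_⟩
        rw [pow_succ', Nat.mod_mul, Nat.mod_mul (x := n), hpar, h2]
      have sub : (p - q) % 2 = 0 → ∀ l : ℕ, l < 5 * 2 ^ j →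
          xorCA^[r] (y (j + 1)) (2 * ((p + 1) / 2 + l)) =
            xorCA^[n] (y (i + 1)) (2 * ((q + 1) / 2 + l)) := by
        intro hpq l hl
        have hnn : 0 ≤ 2 * ((p + 1) / 2 + l) - p := by omega
        have h1 := h (2 * ((p + 1) / 2 + l) - p).toNat (by omega)
        rw [Int.toNat_of_nonneg hnn] at h1
        have e1 : p + (2 * ((p + 1) / 2 + (l : ℤ)) - p) = 2 * ((p + 1) / 2 + l) := by ring
        have e2 : q + (2 * ((p + 1) / 2 + (l : ℤ)) - p) = 2 * ((q + 1) / 2 + l) := by omega
        rw [e1, e2] at h1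
        exact h1
      rcases iterate_y_succ j r with ⟨hr, hx⟩ | ⟨hr, hx⟩
      · rcases iterate_y_succ i n with ⟨hn, hz⟩ | ⟨hn, hz⟩
        · by_cases hpq : (p - q) % 2 = 0
          · refine fin (hr.trans hn.symm) fun l hl => ?_
            have := sub hpq l hl
            rwa [hx, hz, E_even, E_even] at this
          · exfalso
            obtain ⟨l, hl, hv⟩ := nonconst (j + 1) r p true
            have h1 := h l (by omega)
            rw [hv, hz] at h1
            rw [hx] at hv
            rcases Int.emod_two_eq_zero_or_one (p + l) with hp | hp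
            · rw [E_odd _ (by omega)] at h1
              exact absurd h1 (by simp)
            · rw [E_odd _ hp] at hv
              exact absurd hv (by simp)
        · exfalso
          obtain ⟨l, hl, hv⟩ := nonconst (j + 1) r (p + 1) true
          have h1 := mixed (xorCA^[r / 2] (y j)) (xorCA^[n / 2] (y i)) p q (5 * 2 ^ (j + 1))
            (fun l hl => by rw [← hx, ← hz]; exact h l hl) (l + 1) (by omega) (by omega)
          rw [← hx] at h1
          have e1 : p + ((l + 1 : ℕ) : ℤ) = p + 1 + l := by push_cast; ring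
          rw [e1, hv] at h1
          exact absurd h1 (by simp)
      · rcases iterate_y_succ i n with ⟨hn, hz⟩ | ⟨hn, hz⟩
        · exfalso
          obtain ⟨l, hl, hv⟩ := nonconst (j + 1) r (p + 1) true
          have h1 := mixed (xorCA^[n / 2] (y i)) (xorCA^[r / 2] (y j)) q p (5 * 2 ^ (j + 1))
            (fun l hl => by rw [← hx, ← hz]; exact (h l hl).symm) (l + 1) (by omega) (by omega)
          rw [← hz, ← h (l + 1) (by omega)] at h1
          have e1 : p + ((l + 1 : ℕ) : ℤ) = p + 1 + l := by push_cast; ring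
          rw [e1, hv] at h1
          exact absurd h1 (by simp)
        · by_cases hpq : (p - q) % 2 = 0
          · refine fin (hr.trans hn.symm) fun l hl => ?_
            have := sub hpq l hl
            rwa [hx, hz, D_even, D_even] at this
          · exfalso
            have hconst : ∀ l : ℕ, l < 5 * 2 ^ (j + 1) →
                xorCA^[r] (y (j + 1)) (p + l) = xorCA^[r] (y (j + 1)) p := by
              intro l
              induction l with
              | zero => intro _; simp
              | succ l ihl =>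
                intro hl
                rw [← ihl (by omega)]
                rcases Int.emod_two_eq_zero_or_one (p + l) with hp | hp
                · rw [h (l + 1) hl, h l (by omega), hz, D_pair (i := q + l) _ (by omega)]
                  congr 1
                  push_cast
                  ring
                · rw [hx, D_pair (i := p + l) _ hp]
                  congr 1
                  push_cast
                  ring
            obtain ⟨l, hl, hv⟩ := nonconst (j + 1) r p (!(xorCA^[r] (y (j + 1)) p))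
            rw [hconst l (by omega)] at hv
            exact absurd hv (by simp)

/-! ### Measures carried by periodic sequences -/

open scoped ENNReal

/-- The period used for the `n`-th component. -/
def P (n : ℕ) : ℕ := 3 * 2 ^ n.unpair.1

theorem P_pos (n : ℕ) : 0 < P n := by unfold P; positivity

open Classical in
/-- The number of translations of `x` by less than `P n` belonging to `A`. -/
noncomputable def cnt (n : ℕ) (x : Conf) (A : Set Conf) : ℕ :=
  ∑ s ∈ Finset.range (P n), if T s x ∈ A then 1 else 0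

/-- The mixture with weights `2 ^ (-n-1)` of the uniform measures on the orbits of the `x n`. -/
noncomputable def M (x : ℕ → Conf) : Measure Conf :=
  Measure.sum fun n => ((2⁻¹ : ℝ≥0∞) ^ (n + 1) * (P n : ℝ≥0∞)⁻¹) •
    ∑ s ∈ Finset.range (P n), Measure.dirac (T s (x n))

theorem measurable_xorCA : Measurable xorCA := by
  refine measurable_pi_lambda _ fun i => ?_
  have h1 : Measurable fun p : Bool × Bool => xor p.1 p.2 := Measurable.of_discrete
  have h2 : Measurable fun x : Conf => (x i, x (i + 1)) :=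
    (measurable_pi_apply i).prodMk (measurable_pi_apply (i + 1))
  exact h1.comp h2

theorem measurable_shift : Measurable shift :=
  measurable_pi_lambda _ fun i => measurable_pi_apply (i + 1)

theorem measurableSet_cyl (w : List Bool) : MeasurableSet (cyl w) := by
  have : cyl w = ⋂ (i : ℕ), ⋂ (h : i < w.length), (fun x : Conf => x i) ⁻¹' {w[i]} := by
    ext x
    simp [cyl]
  rw [this]
  exact MeasurableSet.iInter fun i => MeasurableSet.iInter fun h =>
    measurable_pi_apply (i : ℤ) (MeasurableSet.singleton _)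

theorem M_apply (x : ℕ → Conf) {A : Set Conf} (hA : MeasurableSet A) :
    M x A = ∑' n, (2⁻¹ : ℝ≥0∞) ^ (n + 1) * (P n : ℝ≥0∞)⁻¹ * (cnt n (x n) A : ℝ≥0∞) := by
  unfold M
  rw [Measure.sum_apply _ hA]
  congr 1
  funext n
  rw [Measure.smul_apply, Measure.finsetSum_apply, smul_eq_mul]
  congr 1
  unfold cnt
  push_cast
  apply Finset.sum_congr rfl
  intro s _
  rw [Measure.dirac_apply' _ hA]
  by_cases h : T s (x n) ∈ A
  · simp [h]
  · simp [h]

theorem cnt_le (n : ℕ) (x : Conf) (A : Set Conf) : cnt n x A ≤ P n := by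
  unfold cnt
  calc _ ≤ ∑ s ∈ Finset.range (P n), 1 := Finset.sum_le_sum fun s _ => by split_ifs <;> simp
    _ = P n := by simp

theorem term_toReal (n c : ℕ) : ((2⁻¹ : ℝ≥0∞) ^ (n + 1) * (P n : ℝ≥0∞)⁻¹ * (c : ℝ≥0∞)).toReal =
    (2⁻¹ : ℝ) ^ (n + 1) * (c / P n) := by
  rw [ENNReal.toReal_mul, ENNReal.toReal_mul, ENNReal.toReal_pow, ENNReal.toReal_inv,
    ENNReal.toReal_inv, ENNReal.toReal_natCast, ENNReal.toReal_natCast]
  simp only [ENNReal.toReal_ofNat]
  ring

theorem M_real (x : ℕ → Conf) {A : Set Conf} (hA : MeasurableSet A) :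
    (M x).real A = ∑' n, (2⁻¹ : ℝ) ^ (n + 1) * (cnt n (x n) A / P n) := by
  unfold Measure.real
  rw [M_apply x hA, ENNReal.tsum_toReal_eq]
  · congr 1
    funext n
    exact term_toReal n _
  · intro n
    refine ENNReal.mul_ne_top (ENNReal.mul_ne_top ?_ ?_) (ENNReal.natCast_ne_top _)
    · exact ENNReal.pow_ne_top (by simp)
    · rw [ENNReal.inv_ne_top]
      exact_mod_cast (P_pos n).ne'

theorem cnt_univ (n : ℕ) (x : Conf) : cnt n x Set.univ = P n := by
  simp [cnt]

instance isProb (x : ℕ → Conf) : IsProbabilityMeasure (M x) := by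
  refine ⟨?_⟩
  rw [M_apply x MeasurableSet.univ]
  have : ∀ n, (2⁻¹ : ℝ≥0∞) ^ (n + 1) * (P n : ℝ≥0∞)⁻¹ * (cnt n (x n) Set.univ : ℝ≥0∞) =
      2⁻¹ ^ (n + 1) := by
    intro n
    rw [cnt_univ, mul_assoc, ENNReal.inv_mul_cancel, mul_one]
    · exact_mod_cast (P_pos n).ne'
    · exact ENNReal.natCast_ne_top _
  simp_rw [this]
  rw [ENNReal.tsum_geometric_add_one, ENNReal.one_sub_inv_two, inv_inv]
  exact ENNReal.inv_mul_cancel (by norm_num) (by norm_num)

theorem M_congr {x x' : ℕ → Conf} (h : ∀ n A, cnt n (x n) A = cnt n (x' n) A) : M x = M x' := by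
  ext A hA
  rw [M_apply x hA, M_apply x' hA]
  refine tsum_congr fun n => ?_
  rw [h]

theorem M_map (x : ℕ → Conf) : (M x).map xorCA = M fun n => xorCA (x n) := by
  ext A hA
  rw [Measure.map_apply measurable_xorCA hA, M_apply _ hA, M_apply _ (measurable_xorCA hA)]
  have : ∀ n, cnt n (x n) (xorCA ⁻¹' A) = cnt n (xorCA (x n)) A := by
    intro n
    unfold cnt
    apply Finset.sum_congr rfl
    intro s _
    rw [Set.mem_preimage, xorCA_T]
  refine tsum_congr fun n => ?_
  rw [this]

theorem M_map_iterate (x : ℕ → Conf) (N : ℕ) :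
    (M x).map (xorCA^[N]) = M fun n => xorCA^[N] (x n) := by
  induction N with
  | zero => simp
  | succ N ih =>
    have h1 : xorCA^[N + 1] = xorCA ∘ xorCA^[N] := Function.iterate_succ' _ _
    have h2 : Measurable (xorCA^[N]) := measurable_xorCA.iterate N
    rw [h1, ← Measure.map_map measurable_xorCA h2, ih, M_map]
    rfl

theorem cnt_T_one {n : ℕ} {x : Conf} (hx : T (P n) x = x) (A : Set Conf) :
    cnt n (T 1 x) A = cnt n x A := by
  classical
  unfold cnt
  have h1 : ∀ s : ℕ, T s (T 1 x) = T ((s + 1 : ℕ) : ℤ) x := by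
    intro s
    rw [T_T]
    push_cast
    rfl
  rw [Finset.sum_congr rfl fun s _ => by rw [h1 s]]
  have h2 := Finset.sum_range_succ (fun s : ℕ => if T (s : ℤ) x ∈ A then 1 else 0) (P n)
  have h3 := Finset.sum_range_succ' (fun s : ℕ => if T (s : ℤ) x ∈ A then 1 else 0) (P n)
  have h4 : T ((0 : ℕ) : ℤ) x = x := by funext i; simp [T]
  rw [hx] at h2
  rw [h4] at h3
  rw [h2] at h3
  exact (Nat.add_right_cancel h3).symm

theorem T_comm (c d : ℤ) (x : Conf) : T c (T d x) = T d (T c x) := by
  rw [T_T, T_T, add_comm]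

theorem cnt_T {n : ℕ} {x : Conf} (hx : T (P n) x = x) (c : ℕ) (A : Set Conf) :
    cnt n (T c x) A = cnt n x A := by
  induction c with
  | zero =>
    have h4 : T ((0 : ℕ) : ℤ) x = x := by funext i; simp [T]
    rw [h4]
  | succ c ih =>
    have h1 : T ((c + 1 : ℕ) : ℤ) x = T 1 (T c x) := by
      rw [T_T]
      push_cast
      rw [add_comm]
    rw [h1, cnt_T_one _ A, ih]
    rw [T_comm, hx]

theorem M_shift (x : ℕ → Conf) (hx : ∀ n, T (P n) (x n) = x n) : (M x).map shift = M x := by
  ext A hA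
  rw [Measure.map_apply measurable_shift hA, M_apply _ hA, M_apply _ (measurable_shift hA)]
  have : ∀ n, cnt n (x n) (shift ⁻¹' A) = cnt n (x n) A := by
    intro n
    rw [← cnt_T_one (hx n) A]
    unfold cnt
    apply Finset.sum_congr rfl
    intro s _
    have : shift (T s (x n)) = T s (T 1 (x n)) := by
      rw [T_comm]
      rfl
    rw [Set.mem_preimage, this]
  refine tsum_congr fun n => ?_
  rw [this]

/-! ### The family of measures -/

/-- The zero sequence. -/
def zero : Conf := fun _ => false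

theorem iterate_zero (N : ℕ) : xorCA^[N] zero = zero := by
  induction N with
  | zero => rfl
  | succ N ih =>
    rw [Function.iterate_succ_apply', ih]
    funext i
    rfl

/-- The components: the `n`-th one is `F^(g j) (y j)` if `h j t` holds, where `n` codes the pair
`(j, t)`, and the zero sequence otherwise. -/
def S (h : ℕ → ℕ → Bool) (g : ℕ → ℕ) (n : ℕ) : Conf :=
  if h n.unpair.1 n.unpair.2 then xorCA^[g n.unpair.1] (y n.unpair.1) else zero

theorem iterate_S (h : ℕ → ℕ → Bool) (g : ℕ → ℕ) (N n : ℕ) :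
    xorCA^[N] (S h g n) = S h (fun j => N + g j) n := by
  unfold S
  split_ifs with hh
  · rw [← Function.iterate_add_apply]
  · exact iterate_zero N

theorem T_iterate_y (j r : ℕ) : T (3 * 2 ^ j) (xorCA^[r] (y j)) = xorCA^[r] (y j) := by
  rw [← iterate_T, T_y]

theorem T_S (h : ℕ → ℕ → Bool) (g : ℕ → ℕ) (n : ℕ) : T (P n) (S h g n) = S h g n := by
  unfold S P
  split_ifs with hh
  · push_cast
    exact T_iterate_y _ _
  · rfl

theorem iterate_y_mod (j r : ℕ) : xorCA^[r] (y j) =
    T ((2 ^ (j + 1) * (r / 2 ^ j) : ℕ) : ℤ) (xorCA^[r % 2 ^ j] (y j)) := by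
  conv_lhs => rw [← Nat.mod_add_div r (2 ^ j), Function.iterate_add_apply, iterate_y, iterate_T]
  push_cast
  rfl

theorem cnt_S_congr (h : ℕ → ℕ → Bool) {g g' : ℕ → ℕ} {n : ℕ}
    (hg : g n.unpair.1 % 2 ^ n.unpair.1 = g' n.unpair.1 % 2 ^ n.unpair.1) (A : Set Conf) :
    cnt n (S h g n) A = cnt n (S h g' n) A := by
  unfold S
  split_ifs with hh
  · have hper : T (P n) (xorCA^[g n.unpair.1 % 2 ^ n.unpair.1] (y n.unpair.1)) =
        xorCA^[g n.unpair.1 % 2 ^ n.unpair.1] (y n.unpair.1) := by
      unfold P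
      push_cast
      exact T_iterate_y _ _
    have h1 := iterate_y_mod n.unpair.1 (g n.unpair.1)
    have h2 := iterate_y_mod n.unpair.1 (g' n.unpair.1)
    rw [← hg] at h2
    rw [h1, h2, cnt_T hper, cnt_T hper]
  · rfl

/-- The word of length `5 * 2 ^ j` at the origin in `F^r (y j)`. -/
def V (j r : ℕ) : List Bool := (List.range (5 * 2 ^ j)).map fun l : ℕ => xorCA^[r] (y j) (l : ℤ)

theorem mem_cyl_V {j r : ℕ} {x : Conf} {s : ℤ} :
    T s x ∈ cyl (V j r) ↔ ∀ l : ℕ, l < 5 * 2 ^ j → x (l + s) = xorCA^[r] (y j) l := by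
  unfold cyl V
  simp only [List.length_map, List.length_range, Set.mem_ofPred_eq, List.getElem_map,
    List.getElem_range]
  rfl

theorem summable_pow : Summable fun n : ℕ => (2⁻¹ : ℝ) ^ (n + 1) := by
  have : Summable fun n : ℕ => (2⁻¹ : ℝ) ^ n := by
    simpa using summable_geometric_two
  exact (summable_nat_add_iff 1).2 this

theorem ratio_nonneg (n : ℕ) (x : Conf) (A : Set Conf) : (0 : ℝ) ≤ cnt n x A / P n := by
  positivity

theorem ratio_le (n : ℕ) (x : Conf) (A : Set Conf) : (cnt n x A / P n : ℝ) ≤ 1 := by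
  rw [div_le_one (by exact_mod_cast P_pos n)]
  exact_mod_cast cnt_le n x A

theorem term_le (n : ℕ) (x : Conf) (A : Set Conf) :
    (2⁻¹ : ℝ) ^ (n + 1) * (cnt n x A / P n) ≤ 2⁻¹ ^ (n + 1) := by
  have h1 := ratio_le n x A
  have h2 : (0 : ℝ) ≤ 2⁻¹ ^ (n + 1) := by positivity
  nlinarith

theorem term_nonneg (n : ℕ) (x : Conf) (A : Set Conf) :
    0 ≤ (2⁻¹ : ℝ) ^ (n + 1) * (cnt n x A / P n) := by
  positivity

theorem summable_term (x : ℕ → Conf) (A : Set Conf) :
    Summable fun n : ℕ => (2⁻¹ : ℝ) ^ (n + 1) * (cnt n (x n) A / P n) :=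
  Summable.of_nonneg_of_le (fun n => term_nonneg n _ A) (fun n => term_le n _ A) summable_pow

/-- The word `V j r` has positive measure if the `j`-th component is present and is at time
`r` modulo `2 ^ j`. -/
theorem pos_of (h : ℕ → ℕ → Bool) (g : ℕ → ℕ) {j t r : ℕ} (hjt : h j t = true)
    (hg : g j % 2 ^ j = r % 2 ^ j) :
    (2⁻¹ : ℝ) ^ (Nat.pair j t + 1) * (1 / P (Nat.pair j t)) ≤
      (M (S h g)).real (cyl (V j r)) := by
  rw [M_real _ (measurableSet_cyl _)]
  refine le_trans ?_ ((summable_term (S h g) (cyl (V j r))).le_tsum (Nat.pair j t)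
    fun n _ => term_nonneg n _ _)
  have h1 : 1 ≤ cnt (Nat.pair j t) (S h g (Nat.pair j t)) (cyl (V j r)) := by
    rw [cnt_S_congr h (g' := fun _ => r) (by rw [Nat.unpair_pair]; exact hg)]
    have h2 : S h (fun _ => r) (Nat.pair j t) = xorCA^[r] (y j) := by
      unfold S
      rw [Nat.unpair_pair]
      simp only [hjt, if_true]
    rw [h2]
    classical
    unfold cnt
    have h3 : (if T ((0 : ℕ) : ℤ) (xorCA^[r] (y j)) ∈ cyl (V j r) then 1 else 0) = 1 := by
      rw [if_pos]
      rw [mem_cyl_V]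
      intro l _
      simp
    exact h3.symm.le.trans (Finset.single_le_sum
      (f := fun s : ℕ => if T (s : ℤ) (xorCA^[r] (y j)) ∈ cyl (V j r) then 1 else 0)
      (fun _ _ => Nat.zero_le _) (Finset.mem_range.2 (P_pos _)))
  have h4 : (1 : ℝ) ≤ cnt (Nat.pair j t) (S h g (Nat.pair j t)) (cyl (V j r)) := by
    exact_mod_cast h1
  have h5 : (0 : ℝ) < P (Nat.pair j t) := by exact_mod_cast P_pos _
  gcongr

/-- The word `V j r` has measure zero if no component is the `j`-th one at time `r` modulo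
`2 ^ j`. -/
theorem zero_of (h : ℕ → ℕ → Bool) (g : ℕ → ℕ) {j r : ℕ}
    (hg : ∀ t, h j t = true → g j % 2 ^ j ≠ r % 2 ^ j) :
    (M (S h g)).real (cyl (V j r)) = 0 := by
  rw [M_real _ (measurableSet_cyl _)]
  have : ∀ n, cnt n (S h g n) (cyl (V j r)) = 0 := by
    intro n
    classical
    unfold cnt
    apply Finset.sum_eq_zero
    intro s _
    rw [if_neg]
    rw [mem_cyl_V]
    intro hw
    unfold S at hw
    by_cases hh : h n.unpair.1 n.unpair.2 = true
    · rw [if_pos hh] at hw
      obtain ⟨h1, h2⟩ := uniq j n.unpair.1 r (g n.unpair.1) 0 s (fun l hl => by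
        rw [zero_add, add_comm]
        exact (hw l hl).symm)
      rw [h1] at hh h2
      exact hg _ hh h2.symm
    · rw [if_neg hh] at hw
      obtain ⟨l, hl, hv⟩ := nonconst j r 0 true
      have := hw l (by omega)
      rw [zero_add] at hv
      rw [hv] at this
      exact absurd this (by simp [zero])
  simp [this]

theorem map_S (h : ℕ → ℕ → Bool) (g : ℕ → ℕ) (N : ℕ) :
    (M (S h g)).map (xorCA^[N]) = M (S h fun j => N + g j) := by
  rw [M_map_iterate]
  congr 1
  funext n
  exact iterate_S h g N n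

/-! ### Limit points -/

/-- The number with binary digits `ξ 0, …, ξ (j - 1)`. -/
def digits (ξ : ℕ → Bool) (j : ℕ) : ℕ := ∑ i ∈ Finset.range j, if ξ i then 2 ^ i else 0

theorem digits_succ (ξ : ℕ → Bool) (j : ℕ) :
    digits ξ (j + 1) = digits ξ j + if ξ j then 2 ^ j else 0 := Finset.sum_range_succ _ _

theorem digits_lt (ξ : ℕ → Bool) (j : ℕ) : digits ξ j < 2 ^ j := by
  induction j with
  | zero => simp [digits]
  | succ j ih =>
    rw [digits_succ, pow_succ]
    split_ifs <;> omega

theorem digits_mod (ξ : ℕ → Bool) (j k : ℕ) : digits ξ (j + k) % 2 ^ j = digits ξ j := by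
  induction k with
  | zero => exact Nat.mod_eq_of_lt (digits_lt ξ j)
  | succ k ih =>
    rw [← add_assoc, digits_succ]
    split_ifs
    · rw [pow_add, Nat.add_mul_mod_self_left, ih]
    · exact ih

theorem digits_inj {ξ ξ' : ℕ → Bool} {j : ℕ} (h : digits ξ j = digits ξ' j) :
    ∀ i < j, ξ i = ξ' i := by
  induction j with
  | zero => intro i hi; omega
  | succ j ih =>
    have h1 := digits_lt ξ j
    have h2 := digits_lt ξ' j
    rw [digits_succ, digits_succ] at h
    have h3 : ξ j = ξ' j ∧ digits ξ j = digits ξ' j := by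
      cases hx : ξ j <;> cases hx' : ξ' j
      · rw [hx, hx'] at h
        exact ⟨rfl, by simpa using h⟩
      · rw [hx, hx'] at h
        simp at h
        omega
      · rw [hx, hx'] at h
        simp at h
        omega
      · rw [hx, hx'] at h
        exact ⟨rfl, by simpa using h⟩
    intro i hi
    rcases Nat.lt_succ_iff_lt_or_eq.1 hi with hi | rfl
    · exact ih h3.2 i hi
    · exact h3.1

/-- The times along which `F^n μ` converges. -/
def times (ξ : ℕ → Bool) (m : ℕ) : ℕ := digits ξ m + 2 ^ m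

theorem times_strictMono (ξ : ℕ → Bool) : StrictMono (times ξ) := by
  apply strictMono_nat_of_lt_succ
  intro m
  unfold times
  rw [digits_succ, pow_succ]
  have := digits_lt ξ m
  have : 0 < 2 ^ m := by positivity
  split_ifs <;> omega

theorem tendsto_times (h : ℕ → ℕ → Bool) (ξ : ℕ → Bool) {A : Set Conf} (hA : MeasurableSet A) :
    Tendsto (fun m => ((M (S h fun _ => 0)).map (xorCA^[times ξ m])).real A) atTop
      (𝓝 ((M (S h (digits ξ))).real A)) := by
  simp_rw [map_S, M_real _ hA]
  refine tendsto_tsum_of_dominated_convergence summable_pow ?_ ?_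
  · intro n
    apply tendsto_const_nhds.congr'
    filter_upwards [eventually_ge_atTop n.unpair.1] with m hm
    obtain ⟨k, rfl⟩ := Nat.exists_eq_add_of_le hm
    congr 3
    apply cnt_S_congr
    unfold times
    rw [add_zero, pow_add, Nat.add_mul_mod_self_left, digits_mod,
      Nat.mod_eq_of_lt (digits_lt _ _)]
  · refine Eventually.of_forall fun m n => ?_
    rw [Real.norm_of_nonneg (term_nonneg n _ A)]
    exact term_le n _ A

/-! ### Computability of the measures -/

theorem primrec_sum {α : Type} [Primcodable α] {f : α → ℕ → ℕ} (hf : Primrec₂ f) {N : α → ℕ}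
    (hN : Primrec N) : Primrec fun a => ∑ i ∈ Finset.range (N a), f a i := by
  have h : Primrec₂ (fun (a : α) (p : ℕ × ℕ) => p.2 + f a p.1) :=
    Primrec.nat_add.comp₂ (Primrec.snd.comp₂ Primrec₂.right)
      (hf.comp₂ Primrec₂.left (Primrec.fst.comp₂ Primrec₂.right))
  refine (Primrec.nat_rec' hN (Primrec.const 0) h).of_eq fun a => ?_
  induction N a with
  | zero => rfl
  | succ n ih =>
    rw [Finset.sum_range_succ, ← ih]

theorem primrec_two_pow : Primrec fun n : ℕ => 2 ^ n := by
  have h : Primrec₂ (fun (_ : ℕ) (p : ℕ × ℕ) => 2 * p.2) :=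
    Primrec.nat_mul.comp₂ (Primrec₂.const 2) (Primrec.snd.comp₂ Primrec₂.right)
  refine (Primrec.nat_rec' Primrec.id (Primrec.const 1) h).of_eq fun a => ?_
  show Nat.rec 1 (fun n IH => 2 * IH) a = 2 ^ a
  induction a with
  | zero => rfl
  | succ n ih =>
    show 2 * Nat.rec 1 (fun n IH => 2 * IH) n = _
    rw [ih, pow_succ']

/-- The values of `y j` at the nonnegative places. -/
def yN (j i : ℕ) : Bool := (i % 2 ^ j == 0) && !((i / 2 ^ j) % 3 == 2)

theorem y_nat (j i : ℕ) : y j (i : ℤ) = yN j i := by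
  unfold y yN
  rw [Bool.eq_iff_iff]
  simp only [decide_eq_true_eq, Bool.and_eq_true, beq_iff_eq, Bool.not_eq_true',
    beq_eq_false_iff_ne]
  have h1 : (i : ℤ) % 2 ^ j = ((i % 2 ^ j : ℕ) : ℤ) := by push_cast; rfl
  have h2 : (i : ℤ) / 2 ^ j % 3 = ((i / 2 ^ j % 3 : ℕ) : ℤ) := by push_cast; rfl
  rw [h1, h2]
  norm_cast

theorem primrec_yN : Primrec₂ yN := by
  have h1 : Primrec fun p : ℕ × ℕ => p.2 % 2 ^ p.1 :=
    Primrec.nat_mod.comp Primrec.snd (primrec_two_pow.comp Primrec.fst)
  have h2 : Primrec fun p : ℕ × ℕ => p.2 / 2 ^ p.1 % 3 :=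
    Primrec.nat_mod.comp (Primrec.nat_div.comp Primrec.snd (primrec_two_pow.comp Primrec.fst))
      (Primrec.const 3)
  exact Primrec.and.comp (Primrec.beq.comp h1 (Primrec.const 0))
    (Primrec.not.comp (Primrec.beq.comp h2 (Primrec.const 2)))

/-- The values of the `n`-th component at the nonnegative places. -/
def vN (h : ℕ → ℕ → Bool) (n i : ℕ) : Bool := h n.unpair.1 n.unpair.2 && yN n.unpair.1 i

theorem S_nat (h : ℕ → ℕ → Bool) (n i : ℕ) : S h (fun _ => 0) n (i : ℤ) = vN h n i := by
  unfold S vN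
  split_ifs with hh
  · rw [hh, Function.iterate_zero, id, Bool.true_and, y_nat]
  · rw [Bool.not_eq_true] at hh
    rw [hh]
    rfl

theorem primrec_vN {h : ℕ → ℕ → Bool} (hh : Primrec₂ h) : Primrec₂ (vN h) := by
  have h1 : Primrec fun p : ℕ × ℕ => p.1.unpair.1 := Primrec.fst.comp (Primrec.unpair.comp Primrec.fst)
  have h2 : Primrec fun p : ℕ × ℕ => p.1.unpair.2 := Primrec.snd.comp (Primrec.unpair.comp Primrec.fst)
  exact Primrec.and.comp (hh.comp h1 h2) (primrec_yN.comp h1 Primrec.snd)

/-- The numbers `cnt`, computed. -/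
def cN (h : ℕ → ℕ → Bool) (a : List Bool × ℕ) (n : ℕ) : ℕ :=
  ∑ s ∈ Finset.range (P n),
    bif a.1 == (List.range a.1.length).map (fun l => vN h n (l + s)) then 1 else 0

theorem cnt_eq_cN (h : ℕ → ℕ → Bool) (a : List Bool × ℕ) (n : ℕ) :
    cnt n (S h (fun _ => 0) n) (cyl a.1) = cN h a n := by
  classical
  unfold cnt cN
  apply Finset.sum_congr rfl
  intro s _
  have h1 : T s (S h (fun _ => 0) n) ∈ cyl a.1 ↔
      a.1 = (List.range a.1.length).map (fun l => vN h n (l + s)) := by
    constructor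
    · intro hm
      apply List.ext_getElem (by simp)
      intro i h1 h2
      have h3 := hm i h1
      rw [← h3, List.getElem_map, List.getElem_range]
      show S h (fun _ => 0) n ((i : ℤ) + (s : ℤ)) = _
      rw [← S_nat]
      push_cast
      rfl
    · intro he i hi
      have h2 : a.1[i] = vN h n (i + s) := by
        have h3 : a.1[i]? = some (vN h n (i + s)) := by
          rw [he, List.getElem?_map, List.getElem?_range hi]
          rfl
        rw [List.getElem?_eq_getElem hi] at h3
        exact Option.some.inj h3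
      rw [h2]
      show S h (fun _ => 0) n ((i : ℤ) + (s : ℤ)) = _
      rw [← S_nat]
      push_cast
      rfl
  by_cases h2 : T s (S h (fun _ => 0) n) ∈ cyl a.1
  · rw [if_pos h2, beq_iff_eq.2 (h1.1 h2)]
    rfl
  · rw [if_neg h2]
    have h3 : (a.1 == (List.range a.1.length).map (fun l => vN h n (l + s))) = false := by
      rw [beq_eq_false_iff_ne]
      exact fun h4 => h2 (h1.2 h4)
    rw [h3]
    rfl

theorem primrec_P : Primrec P :=
  Primrec.nat_mul.comp (Primrec.const 3)
    (primrec_two_pow.comp (Primrec.fst.comp Primrec.unpair))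

theorem primrec_cN {h : ℕ → ℕ → Bool} (hh : Primrec₂ h) : Primrec₂ (cN h) := by
  refine primrec_sum (α := (List Bool × ℕ) × ℕ) (f := fun b s =>
    bif b.1.1 == (List.range b.1.1.length).map (fun l => vN h b.2 (l + s)) then 1 else 0) ?_
    (primrec_P.comp Primrec.snd)
  have h1 : Primrec fun b : ((List Bool × ℕ) × ℕ) × ℕ => b.1.1.1 :=
    Primrec.fst.comp (Primrec.fst.comp Primrec.fst)
  refine Primrec.cond ?_ (Primrec.const 1) (Primrec.const 0)
  refine Primrec.of_eq (f := fun b : ((List Bool × ℕ) × ℕ) × ℕ =>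
    @BEq.beq (List Bool) instBEqOfDecidableEq b.1.1.1
      ((List.range b.1.1.1.length).map (fun l => vN h b.1.2 (l + b.2)))) ?_
    (fun b => by rw [Bool.eq_iff_iff]; simp)
  refine Primrec.beq.comp h1 ?_
  refine Primrec.list_map (Primrec.list_range.comp (Primrec.list_length.comp h1)) ?_
  exact (primrec_vN hh).comp₂ ((Primrec.snd.comp (Primrec.fst.comp Primrec.fst)))
    (Primrec.nat_add.comp₂ Primrec₂.right (Primrec.snd.comp₂ Primrec₂.left))

/-- The numerator. -/
def numer (h : ℕ → ℕ → Bool) (a : List Bool × ℕ) : ℕ :=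
  ∑ n ∈ Finset.range a.2, 2 ^ (a.2 - 1 - n) * (2 ^ (a.2 - n.unpair.1) * cN h a n)

/-- The denominator. -/
def denom (a : List Bool × ℕ) : ℕ := 2 ^ a.2 * (3 * 2 ^ a.2)

theorem primrec_numer {h : ℕ → ℕ → Bool} (hh : Primrec₂ h) : Primrec (numer h) := by
  refine primrec_sum (f := fun (a : List Bool × ℕ) n =>
    2 ^ (a.2 - 1 - n) * (2 ^ (a.2 - n.unpair.1) * cN h a n)) ?_ Primrec.snd
  have h1 : Primrec fun p : (List Bool × ℕ) × ℕ => p.1.2 := Primrec.snd.comp Primrec.fst
  refine Primrec.nat_mul.comp (primrec_two_pow.comp (Primrec.nat_sub.comp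
    (Primrec.nat_sub.comp h1 (Primrec.const 1)) Primrec.snd)) ?_
  refine Primrec.nat_mul.comp (primrec_two_pow.comp (Primrec.nat_sub.comp h1
    (Primrec.fst.comp (Primrec.unpair.comp Primrec.snd)))) ?_
  exact (primrec_cN hh).comp Primrec.fst Primrec.snd

theorem primrec_denom : Primrec denom :=
  Primrec.nat_mul.comp (primrec_two_pow.comp Primrec.snd)
    (Primrec.nat_mul.comp (Primrec.const 3) (primrec_two_pow.comp Primrec.snd))

theorem numer_div_denom (h : ℕ → ℕ → Bool) (w : List Bool) (k : ℕ) :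
    (numer h (w, k) : ℝ) / denom (w, k) = ∑ n ∈ Finset.range k,
      (2⁻¹ : ℝ) ^ (n + 1) * (cnt n (S h (fun _ => 0) n) (cyl w) / P n) := by
  unfold numer denom
  push_cast
  rw [Finset.sum_div]
  apply Finset.sum_congr rfl
  intro n hn
  have hn' : n < k := Finset.mem_range.1 hn
  have hj : n.unpair.1 ≤ n := Nat.unpair_left_le n
  have h1 : ((cnt n (S h (fun _ => 0) n) (cyl w) : ℕ) : ℝ) = cN h (w, k) n := by
    rw [cnt_eq_cN h (w, k) n]
  rw [h1]
  have e1 : (2 : ℝ) ^ k = 2 ^ (k - 1 - n) * 2 ^ (n + 1) := by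
    rw [← pow_add]
    congr 1
    omega
  have e2 : (2 : ℝ) ^ k = 2 ^ (k - n.unpair.1) * 2 ^ n.unpair.1 := by
    rw [← pow_add]
    congr 1
    omega
  have e3 : ((P n : ℕ) : ℝ) = 3 * 2 ^ n.unpair.1 := by
    unfold P
    push_cast
    rfl
  rw [e3, inv_pow]
  have p1 : (2 : ℝ) ^ (k - 1 - n) ≠ 0 := by positivity
  have p2 : (2 : ℝ) ^ (k - n.unpair.1) ≠ 0 := by positivity
  have p3 : (2 : ℝ) ^ (n + 1) ≠ 0 := by positivity
  have p4 : (2 : ℝ) ^ n.unpair.1 ≠ 0 := by positivity
  show (2 : ℝ) ^ (k - 1 - n) * (2 ^ (k - n.unpair.1) * (cN h (w, k) n : ℝ)) /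
    (2 ^ k * (3 * 2 ^ k)) = _
  calc (2 : ℝ) ^ (k - 1 - n) * (2 ^ (k - n.unpair.1) * (cN h (w, k) n : ℝ)) /
      (2 ^ k * (3 * 2 ^ k)) = (2 : ℝ) ^ (k - 1 - n) * (2 ^ (k - n.unpair.1) *
        (cN h (w, k) n : ℝ)) / ((2 ^ (k - 1 - n) * 2 ^ (n + 1)) *
          (3 * (2 ^ (k - n.unpair.1) * 2 ^ n.unpair.1))) := by rw [← e1, ← e2]
    _ = _ := by field_simp

theorem tail_le (x : ℕ → Conf) (A : Set Conf) (k : ℕ) :
    |∑' n, (2⁻¹ : ℝ) ^ (n + 1) * (cnt n (x n) A / P n) -
      ∑ n ∈ Finset.range k, (2⁻¹ : ℝ) ^ (n + 1) * (cnt n (x n) A / P n)| ≤ 2⁻¹ ^ k := by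
  have h1 := (summable_term x A).sum_add_tsum_nat_add k
  rw [← h1, add_sub_cancel_left]
  have h2 : (0 : ℝ) ≤ ∑' n, (2⁻¹ : ℝ) ^ (n + k + 1) * (cnt (n + k) (x (n + k)) A / P (n + k)) :=
    tsum_nonneg fun n => term_nonneg _ _ _
  rw [abs_of_nonneg h2]
  have h3 : Summable fun n : ℕ => (2⁻¹ : ℝ) ^ (n + k + 1) :=
    (summable_nat_add_iff k).2 summable_pow
  have h4 : Summable fun n : ℕ => (2⁻¹ : ℝ) ^ (n + k + 1) *
      (cnt (n + k) (x (n + k)) A / P (n + k)) :=
    (summable_nat_add_iff k).2 (summable_term x A)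
  refine (h4.tsum_le_tsum (fun n => term_le _ _ _) h3).trans ?_
  have h5 : ∀ n : ℕ, (2⁻¹ : ℝ) ^ (n + k + 1) = 2⁻¹ ^ k * 2⁻¹ * 2⁻¹ ^ n := by
    intro n
    ring
  simp_rw [h5]
  rw [tsum_mul_left, tsum_geometric_inv_two]
  have h6 : (2⁻¹ : ℝ) ^ k * 2⁻¹ * 2 = 2⁻¹ ^ k := by
    rw [mul_assoc, inv_mul_cancel₀ (by norm_num), mul_one]
  exact h6.le

theorem computable_M {h : ℕ → ℕ → Bool} (hh : Primrec₂ h) :
    ComputableMeasure (M (S h fun _ => 0)) := by
  refine ⟨numer h, denom, (primrec_numer hh).to_comp, primrec_denom.to_comp, ?_⟩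
  intro w k
  refine ⟨by unfold denom; positivity, ?_⟩
  rw [numer_div_denom, M_real _ (measurableSet_cyl w)]
  exact tail_le _ _ k

/-! ### Countability -/

theorem exists_code_of {f : List Bool × ℕ → ℕ} (hf : Computable f) :
    ∃ c : Nat.Partrec.Code, ∀ a, c.eval (Encodable.encode a) = Part.some (f a) := by
  obtain ⟨c, hc⟩ := Nat.Partrec.Code.exists_code.1 hf
  refine ⟨c, fun a => ?_⟩
  rw [hc]
  simp

/-- Among measures `ν ξ`, `ξ ∈ {0, 1}^ℕ`, which differ on cylinder sets, one is not computable. -/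
theorem exists_noncomputable (ν : (ℕ → Bool) → Measure Conf)
    (hν : ∀ ξ ξ', ξ ≠ ξ' → ∃ w, (ν ξ).real (cyl w) ≠ (ν ξ').real (cyl w)) :
    ∃ ξ, ¬ ComputableMeasure (ν ξ) := by
  by_contra hcon
  push Not at hcon
  have hex : ∀ ξ, ∃ c : Nat.Partrec.Code × Nat.Partrec.Code, ∃ p q : List Bool × ℕ → ℕ,
      (∀ a, c.1.eval (Encodable.encode a) = Part.some (p a)) ∧
      (∀ a, c.2.eval (Encodable.encode a) = Part.some (q a)) ∧
      ∀ w k, |(ν ξ).real (cyl w) - (p (w, k) : ℝ) / q (w, k)| ≤ 2⁻¹ ^ k := by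
    intro ξ
    obtain ⟨p, q, hp, hq, hw⟩ := hcon ξ
    obtain ⟨c, hc⟩ := exists_code_of hp
    obtain ⟨d, hd⟩ := exists_code_of hq
    exact ⟨(c, d), p, q, hc, hd, fun w k => (hw w k).2⟩
  choose c hc using hex
  have hinj : Function.Injective c := by
    intro ξ ξ' he
    by_contra hne
    obtain ⟨w, hw⟩ := hν ξ ξ' hne
    obtain ⟨p, q, h1, h2, h3⟩ := hc ξ
    obtain ⟨p', q', h1', h2', h3'⟩ := hc ξ'
    rw [← he] at h1' h2'
    have hp : p = p' := by
      funext a
      have := (h1 a).symm.trans (h1' a)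
      exact Part.some_injective this
    have hq : q = q' := by
      funext a
      have := (h2 a).symm.trans (h2' a)
      exact Part.some_injective this
    subst hp
    subst hq
    apply hw
    have h4 : ∀ k : ℕ, |(ν ξ).real (cyl w) - (ν ξ').real (cyl w)| ≤ 2 * 2⁻¹ ^ k := by
      intro k
      have h5 := h3 w k
      have h6 := h3' w k
      rw [abs_sub_comm] at h6
      calc |(ν ξ).real (cyl w) - (ν ξ').real (cyl w)| =
          |((ν ξ).real (cyl w) - (p (w, k) : ℝ) / q (w, k)) +
            ((p (w, k) : ℝ) / q (w, k) - (ν ξ').real (cyl w))| := by ring_nf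
        _ ≤ _ := (abs_add_le _ _)
        _ ≤ 2⁻¹ ^ k + 2⁻¹ ^ k := add_le_add h5 h6
        _ = 2 * 2⁻¹ ^ k := by ring
    have h7 : Tendsto (fun k : ℕ => 2 * (2⁻¹ : ℝ) ^ k) atTop (𝓝 0) := by
      have := (tendsto_pow_atTop_nhds_zero_of_lt_one (by norm_num : (0 : ℝ) ≤ 2⁻¹)
        (by norm_num)).const_mul 2
      simpa using this
    have h8 : |(ν ξ).real (cyl w) - (ν ξ').real (cyl w)| ≤ 0 :=
      ge_of_tendsto' h7 h4
    have h9 := abs_nonpos_iff.1 h8
    linarith
  have hcount : Countable (ℕ → Bool) := hinj.countable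
  obtain ⟨f, hf⟩ := exists_injective_nat (ℕ → Bool)
  classical
  refine Function.cantor_injective (fun A : Set ℕ => f fun n => decide (n ∈ A)) ?_
  intro A B hAB
  have := hf hAB
  ext n
  have h1 := congrFun this n
  simpa using h1

/-! ### The result -/

/-- `halt j t` holds if the `j`-th program, started on `0`, is found to halt in `t` steps. -/
def halt (j t : ℕ) : Bool :=
  (Nat.Partrec.Code.evaln t (Denumerable.ofNat Nat.Partrec.Code j) 0).isSome

theorem primrec_halt : Primrec₂ halt := by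
  have h1 : Primrec fun p : ℕ × ℕ =>
      (((p.2, Denumerable.ofNat Nat.Partrec.Code p.1), 0) : (ℕ × Nat.Partrec.Code) × ℕ) :=
    Primrec.pair (Primrec.pair Primrec.snd ((Primrec.ofNat _).comp Primrec.fst))
      (Primrec.const 0)
  exact Primrec.option_isSome.comp (Nat.Partrec.Code.primrec_evaln.comp h1)

theorem halt_iff (c : Nat.Partrec.Code) :
    (∃ t, halt (Encodable.encode c) t = true) ↔ (c.eval 0).Dom := by
  unfold halt
  simp only [Denumerable.ofNat_encode, Option.isSome_iff_exists]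
  rw [Part.dom_iff_mem]
  constructor
  · rintro ⟨t, x, hx⟩
    exact ⟨x, Nat.Partrec.Code.evaln_complete.2 ⟨t, hx⟩⟩
  · rintro ⟨x, hx⟩
    obtain ⟨t, ht⟩ := Nat.Partrec.Code.evaln_complete.1 hx
    exact ⟨t, x, ht⟩

theorem halt_infinite (N : ℕ) : ∃ j, N < j ∧ ∃ t, halt j t = true := by
  have h1 : Function.Injective fun n : ℕ => Encodable.encode (Nat.Partrec.Code.const n) := by
    intro n m h
    exact Nat.Partrec.Code.const_inj (Encodable.encode_injective h)
  obtain ⟨_, ⟨n, rfl⟩, h3⟩ := (Set.infinite_range_of_injective h1).exists_gt N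
  refine ⟨_, h3, (halt_iff _).2 ?_⟩
  rw [Nat.Partrec.Code.eval_const]
  trivial

theorem mem_limitLanguage (h : ℕ → ℕ → Bool) (j : ℕ) :
    V j 0 ∈ limitLanguage (M (S h fun _ => 0)) ↔ ∃ t, h j t = true := by
  constructor
  · intro hV
    by_contra hcon
    push Not at hcon
    apply hV
    have : ∀ N, ((M (S h fun _ => 0)).map (xorCA^[N])).real (cyl (V j 0)) = 0 := by
      intro N
      rw [map_S]
      exact zero_of h _ fun t ht => absurd ht (hcon t)
    simp_rw [this]
    exact tendsto_const_nhds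
  · rintro ⟨t, ht⟩ hlim
    have h1 : Tendsto (fun m : ℕ => 2 ^ j * m) atTop atTop :=
      tendsto_id.const_mul_atTop' (by positivity)
    have h2 := hlim.comp h1
    have h3 : (2⁻¹ : ℝ) ^ (Nat.pair j t + 1) * (1 / P (Nat.pair j t)) ≤ 0 := by
      refine ge_of_tendsto' h2 fun m => ?_
      show _ ≤ ((M (S h fun _ => 0)).map (xorCA^[2 ^ j * m])).real (cyl (V j 0))
      rw [map_S]
      refine pos_of h _ ht ?_
      simp
    have h4 : (0 : ℝ) < P (Nat.pair j t) := by exact_mod_cast P_pos _
    have h5 : (0 : ℝ) < (2⁻¹ : ℝ) ^ (Nat.pair j t + 1) * (1 / P (Nat.pair j t)) := by positivity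
    linarith

theorem primrec_V : Primrec fun j => V j 0 := by
  have h1 : (fun j => V j 0) = fun j => (List.range (5 * 2 ^ j)).map (yN j) := by
    funext j
    unfold V
    apply List.map_congr_left
    intro l _
    exact y_nat j l
  rw [h1]
  exact Primrec.list_map (Primrec.list_range.comp (Primrec.nat_mul.comp (Primrec.const 5)
    primrec_two_pow)) primrec_yN

/-- **Main result.**  There is a computable shift-invariant probability measure `μ` such that the
sequence `F^n μ` has a weak-* limit point `ν` which is not computable, and such that the limit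
language `L_μ(F)` is not computable. -/
theorem result : ∃ μ : Measure Conf, IsProbabilityMeasure μ ∧ μ.map shift = μ ∧
    ComputableMeasure μ ∧
    (∃ ν : Measure Conf, IsProbabilityMeasure ν ∧ ν.map shift = ν ∧ IsLimitPoint μ ν ∧
      ¬ ComputableMeasure ν) ∧
    ¬ ComputablePred fun w => w ∈ limitLanguage μ := by
  refine ⟨M (S halt fun _ => 0), inferInstance, M_shift _ (T_S _ _), computable_M primrec_halt,
    ?_, ?_⟩
  · obtain ⟨ξ, hξ⟩ := exists_noncomputable (fun ξ => M (S halt (digits ξ))) (by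
      intro ξ ξ' hne
      obtain ⟨i, hi⟩ : ∃ i, ξ i ≠ ξ' i := by
        by_contra hcon
        push Not at hcon
        exact hne (funext hcon)
      obtain ⟨j, hj, t, ht⟩ := halt_infinite i
      refine ⟨V j (digits ξ j), ?_⟩
      have h1 := pos_of halt (digits ξ) ht (r := digits ξ j) rfl
      have h2 : (M (S halt (digits ξ'))).real (cyl (V j (digits ξ j))) = 0 := by
        apply zero_of
        intro t _ he
        rw [Nat.mod_eq_of_lt (digits_lt _ _), Nat.mod_eq_of_lt (digits_lt _ _)] at he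
        exact hi (digits_inj he i hj).symm
      rw [h2]
      have h4 : (0 : ℝ) < P (Nat.pair j t) := by exact_mod_cast P_pos _
      have h5 : (0 : ℝ) < (2⁻¹ : ℝ) ^ (Nat.pair j t + 1) * (1 / P (Nat.pair j t)) := by
        positivity
      exact (lt_of_lt_of_le h5 h1).ne')
    exact ⟨M (S halt (digits ξ)), inferInstance, M_shift _ (T_S _ _),
      ⟨times ξ, times_strictMono ξ, fun w => tendsto_times halt ξ (measurableSet_cyl w)⟩, hξ⟩
  · intro hcomp
    apply ComputablePred.halting_problem 0
    refine ComputablePred.computable_of_manyOneReducible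
      (q := fun w => w ∈ limitLanguage (M (S halt fun _ => 0))) ?_ hcomp
    refine ⟨fun c => V (Encodable.encode c) 0, ?_, ?_⟩
    · exact (primrec_V.comp Primrec.encode).to_comp
    · intro c
      exact (halt_iff c).symm.trans (mem_limitLanguage halt _).symm

end Pool.Agent.Results.MP_02be1f_lc.XorLimits
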